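import Pool.Agent.H65.CRZ.TN
import Pool.Agent.H63.HK.DS

/-!
# The trivial bound of the sum over the ideals
-/

set_option autoImplicit false

open NumberField NumberField.InfinitePlace Complex Filter Topology MeasureTheory
open Pool.Agent.H65.CRZ Pool.Agent.H28.RC Pool.Agent.H25.HK Pool.Agent.H37.CV

namespace Pool.Agent.H19.CRZ

/-- the norms of nonzero ideals -/
lemma nm_one {K : Type} [Field K] [NumberField K] {I : Ideal (𝓞 K)} (h : I ≠ ⊥) : 1 ≤ nm I := by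
  rw [nm]
  have h1 : Ideal.absNorm I ≠ 0 := by
    rw [Ne, Ideal.absNorm_eq_zero_iff]
    exact h
  exact_mod_cast Nat.one_le_iff_ne_zero.2 h1

/-- the sum of the norms to the power `-x`, `x > 1` -/
lemma sum_nm (K : Type) [Field K] [NumberField K] {x : ℝ} (hx : 1 < x) :
    Summable (fun I : {I : Ideal (𝓞 K) // I ≠ ⊥} => nm I.1 ^ (-x)) := by
  have h1 := (Pool.Agent.H63.HK.ds K (x : ℂ) (by simpa using hx)).1
  refine h1.congr fun I => ?_
  have h2 : 0 < nm I.1 := lt_of_lt_of_le one_pos (nm_one I.2)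
  have h3 : (Ideal.absNorm I.1 : ℂ) = ((nm I.1 : ℝ) : ℂ) := by
    rw [nm]
    push_cast
    rfl
  rw [h3, Complex.norm_cpow_eq_rpow_re_of_pos h2]
  simp

/-- the bound of a term -/
lemma term_le {n Y δ a CD v : ℝ} {s₁ s₂ : ℂ} (hn1 : 1 ≤ n) (hY : 0 < Y) (hδ : 2 * δ ≤ a)
    (hs1 : 1 / 2 - δ ≤ s₁.re) (hs2 : 1 / 2 - δ ≤ s₂.re) (hC : 0 ≤ CD)
    (hv0 : 0 ≤ v) (h2 : v ≤ CD * (n ^ 2 / Y) ^ (-a)) :
    ‖((n : ℝ) : ℂ) ^ (-(s₁ + s₂))‖ * v ≤ CD * Y ^ a * n ^ (-(1 + 2 * δ)) := by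
  have hn0 : 0 < n := by linarith
  rw [Complex.norm_cpow_eq_rpow_re_of_pos hn0]
  have h3 : n ^ (-(s₁ + s₂)).re ≤ n ^ (-1 + 2 * δ) := by
    apply Real.rpow_le_rpow_of_exponent_le hn1
    simp only [neg_re, add_re]
    linarith
  have h4 : (n ^ 2 / Y) ^ (-a) = n ^ (-(2 * a)) * Y ^ a := by
    rw [Real.div_rpow (by positivity) hY.le, ← Real.rpow_natCast, ← Real.rpow_mul hn0.le,
      Real.rpow_neg hY.le, div_inv_eq_mul]
    congr 2
    push_cast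
    ring
  rw [h4] at h2
  have h5 : n ^ (-1 + 2 * δ) * n ^ (-(2 * a)) ≤ n ^ (-(1 + 2 * δ)) := by
    rw [← Real.rpow_add hn0]
    apply Real.rpow_le_rpow_of_exponent_le hn1
    linarith
  have hYa : 0 < Y ^ a := Real.rpow_pos_of_pos hY _
  calc n ^ (-(s₁ + s₂)).re * v
      ≤ n ^ (-1 + 2 * δ) * (CD * (n ^ (-(2 * a)) * Y ^ a)) :=
        mul_le_mul h3 h2 hv0 (Real.rpow_nonneg hn0.le _)
    _ = CD * Y ^ a * (n ^ (-1 + 2 * δ) * n ^ (-(2 * a))) := by ring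
    _ ≤ CD * Y ^ a * n ^ (-(1 + 2 * δ)) :=
        mul_le_mul_of_nonneg_left h5 (mul_nonneg hC hYa.le)

/-- comparison of sums over a subtype -/
lemma sub_sum {α : Type} {p q : α → Prop} (hpq : ∀ x, q x → p x) (f g : α → ℝ) (c : ℝ)
    (hg0 : ∀ x, p x → 0 ≤ g x) (hg : Summable (fun x : {x // p x} => g x.1)) (hc : 0 ≤ c)
    (hf0 : ∀ x, q x → 0 ≤ f x) (hfg : ∀ x, q x → f x ≤ c * g x) :
    Summable (fun x : {x // q x} => f x.1) ∧
      ∑' x : {x // q x}, f x.1 ≤ c * ∑' x : {x // p x}, g x.1 := by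
  have hj : Function.Injective (fun t : {x // q x} => (⟨t.1, hpq t.1 t.2⟩ : {x // p x})) := by
    intro x y hxy
    have := congrArg Subtype.val hxy
    exact Subtype.ext this
  have hST : Summable (fun t : {x // q x} => g t.1) := hg.comp_injective hj
  have hST2 : Summable (fun t : {x // q x} => c * g t.1) := hST.mul_left _
  have hsum : Summable (fun x : {x // q x} => f x.1) :=
    Summable.of_nonneg_of_le (fun x => hf0 x.1 x.2) (fun x => hfg x.1 x.2) hST2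
  refine ⟨hsum, ?_⟩
  have h6 : ∑' t : {x // q x}, g t.1 ≤ ∑' t : {x // p x}, g t.1 :=
    tsum_comp_le_tsum_of_inj hg (fun x => hg0 x.1 x.2) hj
  calc ∑' x : {x // q x}, f x.1 ≤ ∑' t : {x // q x}, c * g t.1 :=
        hsum.tsum_le_tsum (fun x => hfg x.1 x.2) hST2
    _ = c * ∑' t : {x // q x}, g t.1 := tsum_mul_left
    _ ≤ _ := mul_le_mul_of_nonneg_left h6 hc

theorem pf_SB (h1 : T_VG) : T_SB := by
  intro K _ _ δ a hδ hδ8 ha
  obtain ⟨C, B, hC, hB, hV⟩ := h1 a (by linarith)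
  have hS := sum_nm K (x := 1 + 2 * δ) (by linarith)
  obtain ⟨S0, hS0⟩ : ∃ S0 : ℝ, S0 = ∑' I : {I : Ideal (𝓞 K) // I ≠ ⊥},
    nm I.1 ^ (-(1 + 2 * δ)) := ⟨_, rfl⟩
  have hpos : ∀ I : Ideal (𝓞 K), I ≠ ⊥ → 0 ≤ nm I ^ (-(1 + 2 * δ)) := fun I hI =>
    Real.rpow_nonneg (by
      have := nm_one hI
      linarith) _
  have hS0n : 0 ≤ S0 := by
    rw [hS0]
    exact tsum_nonneg fun I => hpos I.1 I.2
  refine ⟨C * (S0 + 1), B, by positivity, hB, ?_⟩
  intro m s₁ s₂ Y hs1 hs2 hY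
  rw [abs_le] at hs1 hs2
  obtain ⟨D, hD⟩ : ∃ D : ℝ, D = (1 + |s₁.im| + |s₂.im|) ^ B := ⟨_, rfl⟩
  have hD0 : 0 ≤ D := by rw [hD]; positivity
  have hYa : 0 < Y ^ a := Real.rpow_pos_of_pos hY _
  have key := sub_sum (p := fun I : Ideal (𝓞 K) => I ≠ ⊥)
    (q := fun t : Ideal (𝓞 K) => t ≠ ⊥ ∧ t ⊔ m = ⊤) (fun x hx => hx.1)
    (fun t => ‖((nm t : ℝ) : ℂ) ^ (-(s₁ + s₂)) * Vg s₁ s₂ (nm t ^ 2 / Y)‖)
    (fun t => nm t ^ (-(1 + 2 * δ))) (C * D * Y ^ a) hpos hS (by positivity)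
    (fun t _ => norm_nonneg _) (by
      intro t ht
      have hn1 := nm_one ht.1
      have hn0 : 0 < nm t := by linarith
      have hx : 0 < nm t ^ 2 / Y := by positivity
      have h2 := (hV s₁ s₂ (by linarith [hs1.1]) (by linarith [hs1.2]) (by linarith [hs2.1])
        (by linarith [hs2.2]) _ hx).2.2
      rw [← hD] at h2
      rw [norm_mul]
      exact term_le hn1 hY ha (by linarith [hs1.1]) (by linarith [hs2.1]) (by positivity)
        (norm_nonneg _) h2)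
  refine ⟨key.1, ?_⟩
  rw [Sg]
  have h3 := norm_tsum_le_tsum_norm key.1
  rw [← hD]
  refine h3.trans (key.2.trans ?_)
  rw [← hS0]
  have h4 : 0 ≤ C * D * Y ^ a := by positivity
  calc C * D * Y ^ a * S0 ≤ C * D * Y ^ a * (S0 + 1) := by
        apply mul_le_mul_of_nonneg_left _ h4
        linarith
    _ = C * (S0 + 1) * D * Y ^ a := by ring

end Pool.Agent.H19.CRZ
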