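import Pool.Agent.H65.CRZ.TN

/-!
# The Gamma factors of the dual term
-/

set_option autoImplicit false

open Complex Set Filter Topology
open Pool.Agent.H65.CRZ

namespace Pool.Agent.H19.CRZ

/-- Gamma is differentiable on the right half plane -/
lemma gdiff {w : ℂ} (hw : 0 < w.re) : DifferentiableAt ℂ Gamma w := by
  apply Complex.differentiableAt_Gamma
  intro m hm
  rw [hm] at hw
  simp only [neg_re, natCast_re] at hw
  have : (0 : ℝ) ≤ m := Nat.cast_nonneg m
  linarith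

/-- quotients of the values of Gamma at near points -/
lemma near (h1 : T_G1) : ∃ C B : ℝ, 0 < C ∧ 0 ≤ B ∧ ∀ (z p q : ℂ), z.re = 1 / 2 →
    ‖p‖ ≤ 1 / 16 → ‖q‖ ≤ 1 / 16 →
    ‖Gamma (z + p) / Gamma (z + q) - 1‖ ≤ C * (1 + |z.im|) ^ B * ‖p - q‖ := by
  obtain ⟨C, B, hC, hB, h⟩ := h1 1
  refine ⟨16 * (C * 2 ^ B * Real.exp 1) ^ 2, B * 2, by positivity, by positivity, ?_⟩
  intro z p q hz hp hq
  set K := C * 2 ^ B * Real.exp 1 with hK
  have hK0 : 0 < K := by positivity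
  set D := 1 + |z.im| with hD
  have hD1 : 1 ≤ D := by
    rw [hD]
    linarith [abs_nonneg z.im]
  have hre : ∀ w : ℂ, ‖w - z‖ ≤ 1 / 16 → 7 / 16 ≤ w.re ∧ w.re ≤ 9 / 16 := by
    intro w hw
    have h2 := (abs_re_le_norm (w - z)).trans hw
    rw [abs_le, sub_re, hz] at h2
    constructor <;> linarith [h2.1, h2.2]
  have him : ∀ w : ℂ, ‖w - z‖ ≤ 1 / 16 → 1 + |w.im| ≤ 2 * D := by
    intro w hw
    have h2 := (abs_im_le_norm (w - z)).trans hw
    rw [sub_im] at h2
    have h3 : |w.im| ≤ |z.im| + |w.im - z.im| := by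
      have := abs_add_le z.im (w.im - z.im)
      have e : z.im + (w.im - z.im) = w.im := by ring
      rwa [e] at this
    rw [hD]
    have := abs_nonneg z.im
    linarith
  -- the basic comparison
  have comp : ∀ w v : ℂ, ‖w - z‖ ≤ 1 / 16 → ‖v - w‖ ≤ 1 / 8 →
      ‖Gamma v‖ ≤ K * D ^ B * ‖Gamma w‖ := by
    intro w v hw hv
    have h2 := hre w hw
    have h3 := (abs_re_le_norm (v - w)).trans hv
    have h4 := (abs_im_le_norm (v - w)).trans hv
    have h5 := h w (v - w) (by linarith [h2.1]) (by linarith [h2.2])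
      (by linarith [(abs_le.1 h3).1]) (by linarith [(abs_le.1 h3).2])
    have e : w + (v - w) = v := by ring
    rw [e] at h5
    refine h5.trans ?_
    apply mul_le_mul_of_nonneg_right _ (norm_nonneg _)
    have h6 : (1 + |w.im|) ^ B ≤ 2 ^ B * D ^ B := by
      rw [← Real.mul_rpow (by norm_num) (by linarith)]
      exact Real.rpow_le_rpow (by positivity) (him w hw) hB
    have h7 : Real.exp (2 * |(v - w).im|) ≤ Real.exp 1 := Real.exp_le_exp.2 (by linarith)
    calc C * (1 + |w.im|) ^ B * Real.exp (2 * |(v - w).im|)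
        ≤ C * (2 ^ B * D ^ B) * Real.exp 1 := by gcongr
      _ = K * D ^ B := by rw [hK]; ring
  have hq0 : ‖(z + q) - z‖ ≤ 1 / 16 := by simpa using hq
  have hp0 : ‖(z + p) - z‖ ≤ 1 / 16 := by simpa using hp
  have hG0 : Gamma (z + q) ≠ 0 := Complex.Gamma_ne_zero_of_re_pos (by linarith [(hre _ hq0).1])
  have hder : ∀ w ∈ Metric.closedBall z (1 / 16),
      ‖deriv Gamma w‖ ≤ 16 * (K * D ^ B) ^ 2 * ‖Gamma (z + q)‖ := by
    intro w hw
    rw [Metric.mem_closedBall, dist_eq_norm] at hw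
    have h2 : ∀ v ∈ Metric.sphere w (1 / 16), ‖Gamma v‖ ≤ (K * D ^ B) ^ 2 * ‖Gamma (z + q)‖ := by
      intro v hv
      rw [Metric.mem_sphere, dist_eq_norm] at hv
      have h3 := comp w v hw (by linarith)
      have h4 : ‖w - (z + q)‖ ≤ 1 / 8 := by
        have e : w - (z + q) = (w - z) - q := by ring
        rw [e]
        exact (norm_sub_le _ _).trans (by linarith)
      have h5 := comp (z + q) w hq0 h4
      calc ‖Gamma v‖ ≤ K * D ^ B * ‖Gamma w‖ := h3
        _ ≤ K * D ^ B * (K * D ^ B * ‖Gamma (z + q)‖) := by gcongr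
        _ = _ := by ring
    have h6 : DiffContOnCl ℂ Gamma (Metric.ball w (1 / 16)) := by
      apply DifferentiableOn.diffContOnCl
      rw [closure_ball w (by norm_num)]
      intro v hv
      rw [Metric.mem_closedBall, dist_eq_norm] at hv
      apply (gdiff _).differentiableWithinAt
      have h7 := (abs_re_le_norm (v - w)).trans hv
      have h8 := (hre w hw).1
      rw [sub_re] at h7
      linarith [(abs_le.1 h7).1]
    have h9 := Complex.norm_deriv_le_of_forall_mem_sphere_norm_le (by norm_num) h6 h2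
    refine h9.trans (le_of_eq ?_)
    ring
  have hlip : ‖Gamma (z + p) - Gamma (z + q)‖ ≤
      16 * (K * D ^ B) ^ 2 * ‖Gamma (z + q)‖ * ‖(z + p) - (z + q)‖ := by
    apply Convex.norm_image_sub_le_of_norm_deriv_le (s := Metric.closedBall z (1 / 16)) _ hder
      (convex_closedBall _ _)
    · rw [Metric.mem_closedBall, dist_eq_norm]
      exact hq0
    · rw [Metric.mem_closedBall, dist_eq_norm]
      exact hp0
    · intro w hw
      rw [Metric.mem_closedBall, dist_eq_norm] at hw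
      exact gdiff (by linarith [(hre w hw).1])
  have e1 : Gamma (z + p) / Gamma (z + q) - 1 =
      (Gamma (z + p) - Gamma (z + q)) / Gamma (z + q) := by
    field_simp
  have e2 : (z + p) - (z + q) = p - q := by ring
  rw [e2] at hlip
  rw [e1, norm_div, div_le_iff₀ (norm_pos_iff.2 hG0)]
  refine hlip.trans (le_of_eq ?_)
  have e3 : D ^ (B * 2) = (D ^ B) ^ 2 := by
    rw [← Real.rpow_natCast, ← Real.rpow_mul (by linarith)]
    norm_num
  rw [e3]
  ring

theorem pf_G3 (h1 : T_G1) : T_G3 := by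
  obtain ⟨C, B, hC, hB, h⟩ := near h1
  refine ⟨2 * C + C ^ 2, B * 2, by positivity, by positivity, ?_⟩
  intro α β u hα hβ
  set D := 1 + |u| with hD
  have hD1 : 1 ≤ D := by
    rw [hD]
    linarith [abs_nonneg u]
  have hα' : ‖-α‖ ≤ 1 / 16 := by rwa [norm_neg]
  have hβ' : ‖-β‖ ≤ 1 / 16 := by rwa [norm_neg]
  have a1 := h (1 / 2 - u * I) (-α) β (by simp) hα' hβ
  have a2 := h (1 / 2 + u * I) (-β) α (by simp) hβ' hα
  have i1 : |(1 / 2 - u * I : ℂ).im| = |u| := by simp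
  have i2 : |(1 / 2 + u * I : ℂ).im| = |u| := by simp
  rw [i1, ← hD] at a1
  rw [i2, ← hD] at a2
  have n1 : ‖-α - β‖ ≤ ‖α‖ + ‖β‖ := by
    refine (norm_sub_le _ _).trans ?_
    rw [norm_neg]
  have n2 : ‖-β - α‖ ≤ ‖α‖ + ‖β‖ := by
    refine (norm_sub_le _ _).trans ?_
    rw [norm_neg, add_comm]
  have e1 : (1 / 2 - u * I : ℂ) + -α = 1 - (1 / 2 + α + u * I) := by ring
  have e2 : (1 / 2 - u * I : ℂ) + β = 1 / 2 + β - u * I := by ring
  have e3 : (1 / 2 + u * I : ℂ) + -β = 1 - (1 / 2 + β - u * I) := by ring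
  have e4 : (1 / 2 + u * I : ℂ) + α = 1 / 2 + α + u * I := by ring
  rw [e1, e2] at a1
  rw [e3, e4] at a2
  set X := Gamma (1 - (1 / 2 + α + u * I)) / Gamma (1 / 2 + β - u * I) with hX
  set Y := Gamma (1 - (1 / 2 + β - u * I)) / Gamma (1 / 2 + α + u * I) with hY
  have eXY : Gamma (1 - (1 / 2 + α + u * I)) * Gamma (1 - (1 / 2 + β - u * I)) /
      (Gamma (1 / 2 + α + u * I) * Gamma (1 / 2 + β - u * I)) = X * Y := by
    rw [hX, hY]
    ring
  rw [eXY]
  set t := ‖α‖ + ‖β‖ with ht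
  have ht0 : 0 ≤ t := by positivity
  have ht1 : t ≤ 1 := by linarith
  have hDB : 1 ≤ D ^ B := Real.one_le_rpow hD1 hB
  have b1 : ‖X - 1‖ ≤ C * D ^ B * t := a1.trans (by gcongr)
  have b2 : ‖Y - 1‖ ≤ C * D ^ B * t := a2.trans (by gcongr)
  have e5 : X * Y - 1 = (X - 1) + (Y - 1) + (X - 1) * (Y - 1) := by ring
  rw [e5]
  have e6 : D ^ (B * 2) = (D ^ B) ^ 2 := by
    rw [← Real.rpow_natCast, ← Real.rpow_mul (by linarith)]
    norm_num
  rw [e6]
  calc ‖(X - 1) + (Y - 1) + (X - 1) * (Y - 1)‖ ≤ ‖X - 1‖ + ‖Y - 1‖ + ‖X - 1‖ * ‖Y - 1‖ := by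
        refine (norm_add_le _ _).trans ?_
        rw [norm_mul]
        have := norm_add_le (X - 1) (Y - 1)
        linarith
    _ ≤ C * D ^ B * t + C * D ^ B * t + (C * D ^ B * t) * (C * D ^ B * t) := by gcongr
    _ = 2 * C * t * D ^ B + C ^ 2 * t * (D ^ B) ^ 2 * t := by ring
    _ ≤ 2 * C * t * (D ^ B) ^ 2 + C ^ 2 * t * (D ^ B) ^ 2 * 1 := by
        have : D ^ B ≤ (D ^ B) ^ 2 := by nlinarith
        gcongr
    _ = _ := by ring

end Pool.Agent.H19.CRZ
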