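import Pool.Agent.H65.CRZ.TL

/-!
# Jensen's bound for the number of zeros in a disc
-/

set_option autoImplicit false

open Complex Set MeasureTheory
open Pool.Agent.H65.CRZ

namespace Pool.Agent.H19.CRZ

/-- division by one zero, Blaschke factor -/
theorem blaschke (f : ℂ → ℂ) (c ρ : ℂ) (r R M : ℝ) (U : Set ℂ) (hr : 0 < r) (hrR : r < R)
    (hU : IsOpen U) (hb : Metric.closedBall c R ⊆ U) (hf : ∀ s ∈ U, DifferentiableAt ℂ f s)
    (hM : ∀ s ∈ Metric.closedBall c R, ‖f s‖ ≤ M) (hρ : ρ ∈ Metric.closedBall c r)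
    (hz : f ρ = 0) :
    ∃ g : ℂ → ℂ, (∀ s ∈ U, DifferentiableAt ℂ g s) ∧
      (∀ s ∈ Metric.closedBall c R, ‖g s‖ ≤ M) ∧ (∀ z, z ≠ ρ → f z = 0 → g z = 0) ∧
      ‖f c‖ * (R / r) ≤ ‖g c‖ := by
  have hR : 0 < R := lt_trans hr hrR
  have hρU : ρ ∈ U := hb (Metric.closedBall_subset_closedBall hrR.le hρ)
  have hd : DifferentiableOn ℂ (dslope f ρ) U :=
    (Complex.differentiableOn_dslope (hU.mem_nhds hρU)).2
      (fun s hs => (hf s hs).differentiableWithinAt)
  have hd' : ∀ s ∈ U, DifferentiableAt ℂ (dslope f ρ) s := fun s hs =>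
    hd.differentiableAt (hU.mem_nhds hs)
  let g : ℂ → ℂ := fun z => dslope f ρ z *
    (((R : ℂ) ^ 2 - (starRingEnd ℂ) (ρ - c) * (z - c)) / R)
  have hgd : ∀ s ∈ U, DifferentiableAt ℂ g s := by
    intro s hs
    apply (hd' s hs).mul
    fun_prop
  have hval : ∀ z, z ≠ ρ → g z = f z / (z - ρ) *
      (((R : ℂ) ^ 2 - (starRingEnd ℂ) (ρ - c) * (z - c)) / R) := by
    intro z hzρ
    simp only [g]
    rw [dslope_of_ne _ hzρ, slope_def_field, hz, sub_zero]
  have hρd : ‖ρ - c‖ ≤ r := by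
    rw [Metric.mem_closedBall, dist_eq_norm] at hρ
    exact hρ
  refine ⟨g, hgd, ?_, ?_, ?_⟩
  · have hfr : ∀ z ∈ frontier (Metric.ball c R), ‖g z‖ ≤ M := by
      intro z hzf
      rw [frontier_ball c hR.ne', Metric.mem_sphere, dist_eq_norm] at hzf
      have hzρ : z ≠ ρ := by
        rintro rfl
        linarith
      rw [hval z hzρ]
      have h1 : ‖(R : ℂ) ^ 2 - (starRingEnd ℂ) (ρ - c) * (z - c)‖ = R * ‖z - ρ‖ := by
        have h2 : (R : ℂ) ^ 2 = (starRingEnd ℂ) (z - c) * (z - c) := by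
          rw [mul_comm, Complex.mul_conj, Complex.normSq_eq_norm_sq, hzf]
          push_cast
          ring
        rw [h2, ← sub_mul, ← map_sub, norm_mul, Complex.norm_conj, hzf]
        rw [mul_comm]
        congr 2
        ring
      have h3 : ‖z - ρ‖ ≠ 0 := by
        rw [norm_ne_zero_iff]
        exact sub_ne_zero.2 hzρ
      rw [norm_mul, norm_div, norm_div, h1, Complex.norm_real, Real.norm_of_nonneg hR.le]
      have h4 : ‖f z‖ / ‖z - ρ‖ * (R * ‖z - ρ‖ / R) = ‖f z‖ := by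
        field_simp
      rw [h4]
      apply hM
      rw [Metric.mem_closedBall, dist_eq_norm, hzf]
    have hdc : DiffContOnCl ℂ g (Metric.ball c R) := by
      apply DifferentiableOn.diffContOnCl
      rw [closure_ball c hR.ne']
      intro s hs
      exact (hgd s (hb hs)).differentiableWithinAt
    intro s hs
    apply Complex.norm_le_of_forall_mem_frontier_norm_le Metric.isBounded_ball hdc hfr
    rw [closure_ball c hR.ne']
    exact hs
  · intro z hzρ hz0
    rw [hval z hzρ, hz0]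
    simp
  · by_cases hcρ : c = ρ
    · rw [hcρ, hz, norm_zero, zero_mul]
      exact norm_nonneg _
    · rw [hval c hcρ]
      have h5 : ‖c - ρ‖ = ‖ρ - c‖ := norm_sub_rev _ _
      have h6 : 0 < ‖ρ - c‖ := norm_pos_iff.2 (sub_ne_zero.2 (Ne.symm hcρ))
      rw [sub_self, mul_zero, sub_zero, norm_mul, norm_div, norm_div, norm_pow, Complex.norm_real,
        Real.norm_of_nonneg hR.le, h5]
      have h7 : ‖f c‖ / ‖ρ - c‖ * (R ^ 2 / R) = ‖f c‖ * (R / ‖ρ - c‖) := by
        field_simp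
      rw [h7]
      apply mul_le_mul_of_nonneg_left _ (norm_nonneg _)
      exact div_le_div_of_nonneg_left hR.le h6 hρd

/-- the product bound -/
theorem jensen (c : ℂ) (r R M : ℝ) (U : Set ℂ) (hr : 0 < r) (hrR : r < R)
    (hU : IsOpen U) (hb : Metric.closedBall c R ⊆ U) (S : Finset ℂ) :
    ∀ f : ℂ → ℂ, (∀ s ∈ U, DifferentiableAt ℂ f s) →
    (∀ s ∈ Metric.closedBall c R, ‖f s‖ ≤ M) → (∀ z ∈ S, z ∈ Metric.closedBall c r ∧ f z = 0) →
    ‖f c‖ * (R / r) ^ S.card ≤ M := by
  classical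
  induction S using Finset.induction_on with
  | empty =>
    intro f _ hM _
    simp only [Finset.card_empty, pow_zero, mul_one]
    exact hM c (Metric.mem_closedBall_self (lt_trans hr hrR).le)
  | insert ρ S hρS ih =>
    intro f hf hM hS
    have h0 := hS ρ (Finset.mem_insert_self _ _)
    obtain ⟨g, hg1, hg2, hg3, hg4⟩ := blaschke f c ρ r R M U hr hrR hU hb hf hM h0.1 h0.2
    have h1 := ih g hg1 hg2 (fun z hz => by
      have h2 := hS z (Finset.mem_insert_of_mem hz)
      refine ⟨h2.1, hg3 z ?_ h2.2⟩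
      rintro rfl
      exact hρS hz)
    rw [Finset.card_insert_of_notMem hρS, pow_succ]
    have hq : 0 < R / r := div_pos (lt_trans hr hrR) hr
    calc ‖f c‖ * ((R / r) ^ S.card * (R / r)) = (‖f c‖ * (R / r)) * (R / r) ^ S.card := by ring
      _ ≤ ‖g c‖ * (R / r) ^ S.card := mul_le_mul_of_nonneg_right hg4 (by positivity)
      _ ≤ M := h1

theorem pf_JN : T_JN := by
  intro f c r R M U S hr hrR hU hb hf hM hc hS
  have h1 := jensen c r R M U hr hrR hU hb S f hf hM hS
  have hq : 0 < R / r := div_pos (lt_trans hr hrR) hr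
  have hc' : 0 < ‖f c‖ := norm_pos_iff.2 hc
  rw [← Real.log_pow]
  apply Real.log_le_log (by positivity)
  rw [le_div_iff₀ hc', mul_comm]
  exact h1

end Pool.Agent.H19.CRZ
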